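import Pool.Agent.W254.LF.Stm3

/-!
# The Cauchy determinant (LF3-CAU)
-/

set_option autoImplicit false

open Polynomial

namespace Pool.Agent.W460.LF

section

variable {K : Type*} [NormedField K] {m : ℕ}

/-- `∏_(l ≠ i) (X - a_l)` -/
noncomputable def PL (a : Fin m → K) (i : Fin m) : K[X] :=
  ∏ l ∈ Finset.univ.erase i, (X - C (a l))

theorem PL_natDegree (a : Fin m → K) (i : Fin m) : (PL a i).natDegree < m := by
  unfold PL
  rw [natDegree_prod_of_monic _ _ fun l _ => monic_X_sub_C _]
  simp only [natDegree_X_sub_C, Finset.sum_const, smul_eq_mul, mul_one]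
  rw [Finset.card_erase_of_mem (Finset.mem_univ i), Finset.card_univ, Fintype.card_fin]
  have := i.pos
  omega

theorem PL_eval (a : Fin m → K) (i : Fin m) (y : K) :
    (PL a i).eval y = ∏ l ∈ Finset.univ.erase i, (y - a l) := by
  unfold PL
  rw [eval_prod]
  simp

/-- matrix of coefficients -/
noncomputable def CM (a : Fin m → K) : Matrix (Fin m) (Fin m) K :=
  Matrix.of fun k i => (PL a i).coeff (k : ℕ)

theorem vand_mul (a x : Fin m → K) :
    Matrix.of (fun j i => (PL a i).eval (x j)) = Matrix.vandermonde x * CM a := by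
  ext j i
  rw [Matrix.mul_apply, Matrix.of_apply, eval_eq_sum_range' (PL_natDegree a i), Finset.sum_range]
  refine Finset.sum_congr rfl fun k _ => ?_
  rw [Matrix.vandermonde_apply]
  unfold CM
  rw [Matrix.of_apply, mul_comm]

theorem norm_vand (x : Fin m → K) (hx : ∀ i j, i ≠ j → ‖x i - x j‖ = 1) :
    ‖(Matrix.vandermonde x).det‖ = 1 := by
  rw [Matrix.det_vandermonde, norm_prod]
  refine Finset.prod_eq_one fun i _ => ?_
  rw [norm_prod]
  refine Finset.prod_eq_one fun j hj => ?_
  exact hx j i (Finset.mem_Ioi.mp hj).ne'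

theorem norm_cauchy (x a : Fin m → K) (hxa : ∀ i j, ‖x j - a i‖ = 1)
    (hx : ∀ i j, i ≠ j → ‖x i - x j‖ = 1) (ha : ∀ i j, i ≠ j → ‖a i - a j‖ = 1) :
    ‖(Matrix.of fun i j : Fin m => (x j - a i)⁻¹).det‖ = 1 := by
  have hne : ∀ i j, x j - a i ≠ 0 := fun i j h => by
    have := hxa i j
    rw [h, norm_zero] at this
    exact zero_ne_one this
  -- the coefficient matrix
  have hC : ‖(CM a).det‖ = 1 := by
    have h1 : (Matrix.vandermonde a).det * (CM a).det =
        ∏ i, ∏ l ∈ Finset.univ.erase i, (a i - a l) := by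
      rw [← Matrix.det_mul, ← vand_mul]
      have h2 : Matrix.of (fun j i => (PL a i).eval (a j)) =
          Matrix.diagonal fun i => ∏ l ∈ Finset.univ.erase i, (a i - a l) := by
        ext j i
        rw [Matrix.of_apply, PL_eval, Matrix.diagonal_apply]
        split_ifs with h
        · rw [h]
        · exact Finset.prod_eq_zero (Finset.mem_erase.mpr ⟨h, Finset.mem_univ j⟩) (sub_self _)
      rw [h2, Matrix.det_diagonal]
    have h3 := congrArg norm h1
    rw [norm_mul, norm_vand a ha, one_mul, norm_prod] at h3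
    rw [h3]
    refine Finset.prod_eq_one fun i _ => ?_
    rw [norm_prod]
    refine Finset.prod_eq_one fun l hl => ?_
    exact ha i l (Finset.mem_erase.mp hl).1.symm
  rw [← Matrix.det_transpose]
  have h4 : (Matrix.of fun i j : Fin m => (x j - a i)⁻¹).transpose =
      Matrix.diagonal (fun j => ∏ l, (x j - a l)⁻¹) *
        Matrix.of (fun j i => (PL a i).eval (x j)) := by
    ext j i
    rw [Matrix.diagonal_mul, Matrix.transpose_apply, Matrix.of_apply, Matrix.of_apply, PL_eval,
      ← Finset.mul_prod_erase _ _ (Finset.mem_univ i), mul_assoc, ← Finset.prod_mul_distrib]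
    rw [Finset.prod_eq_one (s := Finset.univ.erase i), mul_one]
    intro l _
    exact inv_mul_cancel₀ (hne l j)
  rw [h4, Matrix.det_mul, vand_mul, Matrix.det_mul, norm_mul, norm_mul, norm_vand x hx, hC,
    Matrix.det_diagonal, norm_prod]
  rw [Finset.prod_eq_one, one_mul, one_mul]
  intro j _
  rw [norm_prod]
  refine Finset.prod_eq_one fun l _ => ?_
  rw [norm_inv, hxa, inv_one]

end

theorem t_CAU : Pool.Agent.W254.LF.S_CAU := by
  intro p _ m x a h1 h2 h3
  exact norm_cauchy x a h1 h2 h3

end Pool.Agent.W460.LF
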