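import Pool.Agent.W254.LF.Stm2
import Pool.Agent.W253.LF.Crit

/-!
# Lower bound for the unit rank (LF2-LOW)
-/

set_option autoImplicit false

open NumberField Filter Topology Pool.Agent.W289.SL Pool.Agent.W253.LF

namespace Pool.Agent.W460.LF

theorem t_LOW : Pool.Agent.W254.LF.S_LOW := by
  intro K _ _ p hp L hL r u hu
  have hex := fun x : (𝓞 K)ˣ => exists_exp x
  choose ζ e hζ he using hex
  have hLe : ∀ x : (𝓞 K)ˣ, Lam hL (Additive.ofMul x) =
      ∑ k, (e x k : ℂ_[p]) • Lam hL (Additive.ofMul (Units.fundSystem K k)) := by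
    intro x
    conv_lhs => rw [he x]
    rw [ofMul_mul, map_add, Lam_torsion hL (hζ x), zero_add, Lam_prod]
  have hlu : LinearIndependent ℂ_[p] (fun i => Lam hL (Additive.ofMul (u i))) := by
    rw [Fintype.linearIndependent_iff]
    intro g hg i
    have := hu g (fun σ => by
      have h1 := congrFun hg σ
      simpa [Finset.sum_apply, Lam_apply] using h1)
    rw [this]
    rfl
  have h1 : (Set.range fun k => Lam hL (Additive.ofMul (Units.fundSystem K k))).finrank ℂ_[p] ≤
      Fintype.card (Fin (Units.rank K)) := finrank_range_le_card _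
  have h2 : (Set.range fun i => Lam hL (Additive.ofMul (u i))).finrank ℂ_[p] ≤
      (Set.range fun k => Lam hL (Additive.ofMul (Units.fundSystem K k))).finrank ℂ_[p] := by
    unfold Set.finrank
    apply Submodule.finrank_mono
    rw [Submodule.span_le]
    rintro _ ⟨i, rfl⟩
    simp only
    rw [hLe (u i)]
    refine Submodule.sum_mem _ fun k _ => Submodule.smul_mem _ _ (Submodule.subset_span ⟨k, rfl⟩)
  have h3 := linearIndependent_iff_card_eq_finrank_span.1 hlu
  rw [Fintype.card_fin] at h1 h3
  omega

end Pool.Agent.W460.LF
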